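import Pool.Agent.Hhelper14.SAW.TnLow

/-!
The chain of domains: a lower bound for the growth of the slit masses.
-/

namespace Pool.Agent.Hhelper3.SAW
open Pool.Agent.Hhelper14.SAW

lemma sum_Icc_five_real (f : ℤ → ℝ) : ∑ k ∈ Finset.Icc (-5 : ℤ) 5, f k =
    f (-5) + f (-4) + f (-3) + f (-2) + f (-1) + f 0 + f 1 + f 2 + f 3 + f 4 + f 5 := by
  have : Finset.Icc (-5 : ℤ) 5 = {-5, -4, -3, -2, -1, 0, 1, 2, 3, 4, 5} := by decide
  rw [this]
  repeat rw [Finset.sum_insert (by decide)]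
  rw [Finset.sum_singleton]
  ring

lemma re_im (f : ℤ → ℝ) (k0 : ℤ) {a : ℝ} (h : ∑ k ∈ Finset.Icc (-5 : ℤ) 5, zt k * (f k : ℂ) = a) :
    ∑ k ∈ Finset.Icc (-5 : ℤ) 5, Real.cos (((k - k0 : ℤ) : ℝ) * (Real.pi / 8)) * f k =
      a * Real.cos (((-k0 : ℤ) : ℝ) * (Real.pi / 8)) ∧
    ∑ k ∈ Finset.Icc (-5 : ℤ) 5, Real.sin (((k - k0 : ℤ) : ℝ) * (Real.pi / 8)) * f k =
      a * Real.sin (((-k0 : ℤ) : ℝ) * (Real.pi / 8)) := by
  have h1 : ∑ k ∈ Finset.Icc (-5 : ℤ) 5, zt (k - k0) * (f k : ℂ) = zt (-k0) * a := by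
    rw [← h, Finset.mul_sum]
    refine Finset.sum_congr rfl fun k _ => ?_
    rw [sub_eq_add_neg, add_comm, zt_add]; ring
  constructor
  · have h2 := congrArg Complex.re h1
    rw [Complex.re_sum, Complex.re_mul_ofReal, zt_re] at h2
    rw [mul_comm a, ← h2]
    refine Finset.sum_congr rfl fun k _ => ?_
    rw [Complex.re_mul_ofReal, zt_re]
  · have h2 := congrArg Complex.im h1
    rw [Complex.im_sum, Complex.im_mul_ofReal, zt_im] at h2
    rw [mul_comm a, ← h2]
    refine Finset.sum_congr rfl fun k _ => ?_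
    rw [Complex.im_mul_ofReal, zt_im]

lemma sin_eighth : 1 / 3 ≤ Real.sin (Real.pi / 8) := by
  have h1 := Real.pi_gt_three
  have h2 := Real.pi_lt_four
  have h3 : Real.pi / 8 - (Real.pi / 8) ^ 3 / 6 < Real.sin (Real.pi / 8) :=
    Real.sin_gt_sub_cube (by linarith)
  have h4 : Real.pi < 3.15 := Real.pi_lt_d2
  nlinarith [sq_nonneg (Real.pi - 3), mul_pos (show 0 < Real.pi - 3 by linarith) (show 0 < 3.15 - Real.pi by linarith)]

lemma sin_lo (j : ℤ) (h1 : 1 ≤ j) (h2 : j ≤ 7) : 1 / 3 ≤ Real.sin ((j : ℝ) * (Real.pi / 8)) := by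
  have hp := Real.pi_pos
  refine le_trans sin_eighth ?_
  have h1' : (1 : ℝ) ≤ j := by exact_mod_cast h1
  have h2' : (j : ℝ) ≤ 7 := by exact_mod_cast h2
  rcases le_or_gt j 4 with h | h
  · have h' : (j : ℝ) ≤ 4 := by exact_mod_cast h
    exact Real.sin_le_sin_of_le_of_le_pi_div_two (by linarith) (by nlinarith) (by nlinarith)
  · have h' : (4 : ℝ) ≤ j := by exact_mod_cast h.le
    rw [← Real.sin_pi_sub ((j : ℝ) * (Real.pi / 8))]
    exact Real.sin_le_sin_of_le_of_le_pi_div_two (by linarith) (by nlinarith) (by nlinarith)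

lemma bd_up {s x : ℝ} (hs : s ≤ 1) (hx : 0 ≤ x) : s * x ≤ x := by nlinarith
lemma bd_lo {s x : ℝ} (hs : -1 ≤ s) (hx : 0 ≤ x) : -x ≤ s * x := by nlinarith
lemma bd_third {s x : ℝ} (hs : s ≤ -(1 / 3)) (hx : 0 ≤ x) : s * x ≤ -(x / 3) := by nlinarith

section
variable (m : Par → ℤ → ℝ) (h0 : ∀ c k, 0 ≤ m c k)
    (hid : ∀ c, ∑ k ∈ Finset.Icc (-5 : ℤ) 5, zt k * (m c k : ℂ) = 1)
    (hrefl : ∀ c k, m c (-k) = m c.refl k)
    (hmono : ∀ c c' k, c.Le c' → c.side k = c'.side k → m c k ≤ m c' k)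

include h0 hid hrefl hmono in
/-- One step of the chain. -/
lemma step {N M : ℕ} (c c' : Par) (k0 : ℤ) (hk1 : 1 ≤ k0) (hk2 : k0 ≤ 3) (hle : c.Le c')
    (hside : ∀ k, -3 ≤ k → k ≤ 3 → k ≠ k0 → c.side k = c'.side k) (hkill : m c' k0 = 0)
    (hN : (Par.all N).Le c) (hM : c'.Le (Par.all M)) (B : ℝ)
    (hB : (if k0 < 2 then m c' 2 else 0) + (if k0 < 3 then m c' 3 else 0) ≤ B) :
    m c k0 ≤ 4 * (B + 2 * ((m (Par.all M) 4 - m (Par.all N) 4) + (m (Par.all M) 5 - m (Par.all N) 5))) := by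
  set d : ℤ → ℝ := fun k => m c' k - m c k with hd
  set D4 := m (Par.all M) 4 - m (Par.all N) 4 with hD4
  set D5 := m (Par.all M) 5 - m (Par.all N) 5 with hD5
  have hs : ∑ k ∈ Finset.Icc (-5 : ℤ) 5, zt k * (d k : ℂ) = ((0 : ℝ) : ℂ) := by
    have : ∑ k ∈ Finset.Icc (-5 : ℤ) 5, zt k * (d k : ℂ) =
        ∑ k ∈ Finset.Icc (-5 : ℤ) 5, zt k * (m c' k : ℂ) - ∑ k ∈ Finset.Icc (-5 : ℤ) 5, zt k * (m c k : ℂ) := by
      rw [← Finset.sum_sub_distrib]
      refine Finset.sum_congr rfl fun k _ => ?_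
      rw [hd]; push_cast; ring
    rw [this, hid, hid]; simp
  obtain ⟨hre, him⟩ := re_im d k0 hs
  rw [sum_Icc_five_real, zero_mul] at hre him
  have hall : ∀ n : ℕ, (Par.all n).refl = Par.all n := fun n => rfl
  -- the slit terms
  have hslit : ∀ k : ℤ, (k = 4 ∨ k = 5 ∨ k = -4 ∨ k = -5) →
      0 ≤ d k ∧ d k ≤ m (Par.all M) k - m (Par.all N) k := by
    intro k hk
    have hz : ∀ c1 c2 : Par, c1.side k = c2.side k := by
      intro c1 c2
      rcases hk with rfl | rfl | rfl | rfl <;> simp [Par.side]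
    have a1 := hmono _ _ k hle (hz _ _)
    have a2 := hmono _ _ k hN (hz _ _)
    have a3 := hmono _ _ k hM (hz _ _)
    exact ⟨by simp only [hd]; linarith, by simp only [hd]; linarith⟩
  have e4 : m (Par.all M) (-4) - m (Par.all N) (-4) = D4 := by rw [hrefl, hrefl, hall, hall]
  have e5 : m (Par.all M) (-5) - m (Par.all N) (-5) = D5 := by rw [hrefl, hrefl, hall, hall]
  have s4 := hslit 4 (by tauto)
  have s5 := hslit 5 (by tauto)
  have s4' := hslit (-4) (by tauto)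
  have s5' := hslit (-5) (by tauto)
  rw [e4] at s4'
  rw [e5] at s5'
  -- the other sides
  have hpos : ∀ k : ℤ, -3 ≤ k → k ≤ 3 → k ≠ k0 → 0 ≤ d k := by
    intro k h1 h2 h3
    have := hmono _ _ k hle (hside k h1 h2 h3)
    simp only [hd]; linarith
  have hle' : ∀ k, d k ≤ m c' k := by
    intro k
    have := h0 c k
    simp only [hd]; linarith
  have hk0d : d k0 = - m c k0 := by simp only [hd]; rw [hkill]; ring
  have Sup : ∀ (j : ℤ), Real.sin ((j : ℝ) * (Real.pi / 8)) ≤ 1 := fun j => Real.sin_le_one _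
  have Cup : ∀ (j : ℤ), Real.cos ((j : ℝ) * (Real.pi / 8)) ≤ 1 := fun j => Real.cos_le_one _
  have Sneg : ∀ (j : ℤ), -7 ≤ j → j ≤ -1 → Real.sin ((j : ℝ) * (Real.pi / 8)) ≤ -(1 / 3) := by
    intro j h1 h2
    have := sin_lo (-j) (by omega) (by omega)
    push_cast at this
    rw [neg_mul, Real.sin_neg] at this
    linarith
  have zz : Real.sin (((k0 - k0 : ℤ) : ℝ) * (Real.pi / 8)) = 0 := by simp
  have zc : Real.cos (((k0 - k0 : ℤ) : ℝ) * (Real.pi / 8)) = 1 := by simp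
  have i5 := bd_up (Sup (5 - k0)) s5.1
  have i4 := bd_up (Sup (4 - k0)) s4.1
  have i5' := bd_up (Sup (-5 - k0)) s5'.1
  have i4' := bd_up (Sup (-4 - k0)) s4'.1
  have r5 := bd_up (Cup (5 - k0)) s5.1
  have r4 := bd_up (Cup (4 - k0)) s4.1
  have r5' := bd_up (Cup (-5 - k0)) s5'.1
  have r4' := bd_up (Cup (-4 - k0)) s4'.1
  have low : ∀ k : ℤ, -3 ≤ k → k < k0 → Real.sin (((k - k0 : ℤ) : ℝ) * (Real.pi / 8)) * d k ≤ -(d k / 3) := by
    intro k h1 h2
    exact bd_third (Sneg _ (by omega) (by omega)) (hpos k h1 (by omega) (by omega))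
  have high : ∀ k : ℤ, k ≤ 3 → k0 < k → Real.sin (((k - k0 : ℤ) : ℝ) * (Real.pi / 8)) * d k ≤ m c' k := by
    intro k h1 h2
    exact le_trans (bd_up (Sup _) (hpos k (by omega) h1 (by omega))) (hle' k)
  have lowc : ∀ k : ℤ, -3 ≤ k → k < k0 → Real.cos (((k - k0 : ℤ) : ℝ) * (Real.pi / 8)) * d k ≤ d k := by
    intro k h1 h2
    exact bd_up (Cup _) (hpos k h1 (by omega) (by omega))
  have highc : ∀ k : ℤ, k ≤ 3 → k0 < k → Real.cos (((k - k0 : ℤ) : ℝ) * (Real.pi / 8)) * d k ≤ m c' k := by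
    intro k h1 h2
    exact le_trans (bd_up (Cup _) (hpos k (by omega) h1 (by omega))) (hle' k)
  have zd : Real.sin (((k0 - k0 : ℤ) : ℝ) * (Real.pi / 8)) * d k0 = 0 := by rw [zz, zero_mul]
  have zdc : Real.cos (((k0 - k0 : ℤ) : ℝ) * (Real.pi / 8)) * d k0 = - m c k0 := by rw [zc, one_mul, hk0d]
  rcases (show k0 = 1 ∨ k0 = 2 ∨ k0 = 3 by omega) with rfl | rfl | rfl
  · have l1 := low (-3) (by norm_num) (by norm_num)
    have l2 := low (-2) (by norm_num) (by norm_num)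
    have l3 := low (-1) (by norm_num) (by norm_num)
    have l4 := low 0 (by norm_num) (by norm_num)
    have u1 := high 2 (by norm_num) (by norm_num)
    have u2 := high 3 (by norm_num) (by norm_num)
    have l1' := lowc (-3) (by norm_num) (by norm_num)
    have l2' := lowc (-2) (by norm_num) (by norm_num)
    have l3' := lowc (-1) (by norm_num) (by norm_num)
    have l4' := lowc 0 (by norm_num) (by norm_num)
    have u1' := highc 2 (by norm_num) (by norm_num)
    have u2' := highc 3 (by norm_num) (by norm_num)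
    rw [if_pos (by norm_num), if_pos (by norm_num)] at hB
    linarith
  · have l1 := low (-3) (by norm_num) (by norm_num)
    have l2 := low (-2) (by norm_num) (by norm_num)
    have l3 := low (-1) (by norm_num) (by norm_num)
    have l4 := low 0 (by norm_num) (by norm_num)
    have l5 := low 1 (by norm_num) (by norm_num)
    have u2 := high 3 (by norm_num) (by norm_num)
    have l1' := lowc (-3) (by norm_num) (by norm_num)
    have l2' := lowc (-2) (by norm_num) (by norm_num)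
    have l3' := lowc (-1) (by norm_num) (by norm_num)
    have l4' := lowc 0 (by norm_num) (by norm_num)
    have l5' := lowc 1 (by norm_num) (by norm_num)
    have u2' := highc 3 (by norm_num) (by norm_num)
    rw [if_neg (by norm_num), if_pos (by norm_num)] at hB
    linarith
  · have l1 := low (-3) (by norm_num) (by norm_num)
    have l2 := low (-2) (by norm_num) (by norm_num)
    have l3 := low (-1) (by norm_num) (by norm_num)
    have l4 := low 0 (by norm_num) (by norm_num)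
    have l5 := low 1 (by norm_num) (by norm_num)
    have l6 := low 2 (by norm_num) (by norm_num)
    have l1' := lowc (-3) (by norm_num) (by norm_num)
    have l2' := lowc (-2) (by norm_num) (by norm_num)
    have l3' := lowc (-1) (by norm_num) (by norm_num)
    have l4' := lowc 0 (by norm_num) (by norm_num)
    have l5' := lowc 1 (by norm_num) (by norm_num)
    have l6' := lowc 2 (by norm_num) (by norm_num)
    rw [if_neg (by norm_num), if_neg (by norm_num)] at hB
    linarith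

include h0 hid hrefl hmono in
/-- The slit masses must grow between the sizes `N` and `10 N + 11`. -/
theorem chain
    (k0 : ∀ c : Par, c.a1 + c.b1 + 1 ≤ c.a0 → m c 0 = 0)
    (k1 : ∀ c : Par, c.a0 + c.a2 + 2 ≤ c.a1 → m c 1 = 0)
    (k2 : ∀ c : Par, c.a1 + c.a3 + 1 ≤ c.a2 → m c 2 = 0)
    (k3 : ∀ c : Par, 2 * c.a2 + 1 ≤ c.a3 → m c 3 = 0) (N : ℕ) :
    1 + 2 * Real.sin (Real.pi / 8) * m (Par.all N) 5 ≤
      416 * ((m (Par.all (10 * N + 11)) 4 - m (Par.all N) 4) + (m (Par.all (10 * N + 11)) 5 - m (Par.all N) 5)) := by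
  set e : ℝ := (m (Par.all (10 * N + 11)) 4 - m (Par.all N) 4) +
    (m (Par.all (10 * N + 11)) 5 - m (Par.all N) 5) with he
  set C0 : Par := ⟨2 * N + 1, N, N, 2 * N + 1, N, N, 2 * N + 1⟩ with hC0
  set C1 : Par := ⟨2 * N + 1, 3 * N + 3, N, 2 * N + 1, N, N, 2 * N + 1⟩ with hC1
  set C2 : Par := ⟨2 * N + 1, 3 * N + 3, 5 * N + 5, 2 * N + 1, N, N, 2 * N + 1⟩ with hC2
  set C3 : Par := ⟨2 * N + 1, 3 * N + 3, 5 * N + 5, 10 * N + 11, N, N, 2 * N + 1⟩ with hC3
  set E2 : Par := ⟨2 * N + 1, N, 3 * N + 2, 2 * N + 1, N, N, 2 * N + 1⟩ with hE2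
  set E3 : Par := ⟨2 * N + 1, N, 3 * N + 2, 6 * N + 5, N, N, 2 * N + 1⟩ with hE3
  have x1 : m C2 3 ≤ 4 * (0 + 2 * e) := by
    refine step m h0 hid hrefl hmono C2 C3 3 (by norm_num) (by norm_num) ?_ ?_ ?_ ?_ ?_ 0 ?_
    · simp only [Par.Le, hC2, hC3]; omega
    · intro k a b hk; simp only [Par.side, hC2, hC3, if_neg hk]
    · apply k3; simp only [hC3]; omega
    · simp only [Par.Le, hC2, Par.all]; omega
    · simp only [Par.Le, hC3, Par.all]; omega
    · norm_num
  have x2 : m C1 2 ≤ 4 * (8 * e + 2 * e) := by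
    refine step m h0 hid hrefl hmono C1 C2 2 (by norm_num) (by norm_num) ?_ ?_ ?_ ?_ ?_ (8 * e) ?_
    · simp only [Par.Le, hC2, hC1]; omega
    · intro k a b hk; simp only [Par.side, hC2, hC1, if_neg hk]
    · apply k2; simp only [hC2]; omega
    · simp only [Par.Le, hC1, Par.all]; omega
    · simp only [Par.Le, hC2, Par.all]; omega
    · rw [if_neg (by norm_num), if_pos (by norm_num)]; linarith
  have x2' : m C1 3 = 0 := by apply k3; simp only [hC1]; omega
  have x3 : m C0 1 ≤ 4 * (40 * e + 2 * e) := by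
    refine step m h0 hid hrefl hmono C0 C1 1 (by norm_num) (by norm_num) ?_ ?_ ?_ ?_ ?_ (40 * e) ?_
    · simp only [Par.Le, hC0, hC1]; omega
    · intro k a b hk; simp only [Par.side, hC0, hC1, if_neg hk]
    · apply k1; simp only [hC1]; omega
    · simp only [Par.Le, hC0, Par.all]; omega
    · simp only [Par.Le, hC1, Par.all]; omega
    · rw [if_pos (by norm_num), if_pos (by norm_num)]; linarith
  have y1 : m E2 3 ≤ 4 * (0 + 2 * e) := by
    refine step m h0 hid hrefl hmono E2 E3 3 (by norm_num) (by norm_num) ?_ ?_ ?_ ?_ ?_ 0 ?_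
    · simp only [Par.Le, hE2, hE3]; omega
    · intro k a b hk; simp only [Par.side, hE2, hE3, if_neg hk]
    · apply k3; simp only [hE3]; omega
    · simp only [Par.Le, hE2, Par.all]; omega
    · simp only [Par.Le, hE3, Par.all]; omega
    · norm_num
  have y2 : m C0 2 ≤ 4 * (8 * e + 2 * e) := by
    refine step m h0 hid hrefl hmono C0 E2 2 (by norm_num) (by norm_num) ?_ ?_ ?_ ?_ ?_ (8 * e) ?_
    · simp only [Par.Le, hE2, hC0]; omega
    · intro k a b hk; simp only [Par.side, hE2, hC0, if_neg hk]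
    · apply k2; simp only [hE2]; omega
    · simp only [Par.Le, hC0, Par.all]; omega
    · simp only [Par.Le, hE2, Par.all]; omega
    · rw [if_neg (by norm_num), if_pos (by norm_num)]; linarith
  have z0 : m C0 0 = 0 := by apply k0; simp only [hC0]; omega
  have z3 : m C0 3 = 0 := by apply k3; simp only [hC0]; omega
  have hsym : ∀ k, m C0 (-k) = m C0 k := fun k => hrefl C0 k
  have hid0 := (re_im (fun k => m C0 k) 0 (a := 1) (by rw [hid]; simp)).1
  rw [sum_Icc_five_real] at hid0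
  simp only [hsym, z0, z3] at hid0
  have c5 : Real.cos (((5 - 0 : ℤ) : ℝ) * (Real.pi / 8)) = - Real.sin (Real.pi / 8) := by
    have : ((5 - 0 : ℤ) : ℝ) * (Real.pi / 8) = Real.pi / 8 + Real.pi / 2 := by push_cast; ring
    rw [this, Real.cos_add_pi_div_two]
  have c5' : Real.cos (((-5 - 0 : ℤ) : ℝ) * (Real.pi / 8)) = - Real.sin (Real.pi / 8) := by
    have : ((-5 - 0 : ℤ) : ℝ) * (Real.pi / 8) = -(Real.pi / 8 + Real.pi / 2) := by push_cast; ring
    rw [this, Real.cos_neg, Real.cos_add_pi_div_two]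
  have c4 : Real.cos (((4 - 0 : ℤ) : ℝ) * (Real.pi / 8)) = 0 := by
    have : ((4 - 0 : ℤ) : ℝ) * (Real.pi / 8) = Real.pi / 2 := by push_cast; ring
    rw [this, Real.cos_pi_div_two]
  have c4' : Real.cos (((-4 - 0 : ℤ) : ℝ) * (Real.pi / 8)) = 0 := by
    have : ((-4 - 0 : ℤ) : ℝ) * (Real.pi / 8) = -(Real.pi / 2) := by push_cast; ring
    rw [this, Real.cos_neg, Real.cos_pi_div_two]
  rw [c5, c5', c4, c4'] at hid0
  have one : (1 : ℝ) * Real.cos (((-0 : ℤ) : ℝ) * (Real.pi / 8)) = 1 := by simp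
  rw [one] at hid0
  have b1 := bd_up (Real.cos_le_one (((1 - 0 : ℤ) : ℝ) * (Real.pi / 8))) (h0 C0 1)
  have b1' := bd_up (Real.cos_le_one (((-1 - 0 : ℤ) : ℝ) * (Real.pi / 8))) (h0 C0 1)
  have b2 := bd_up (Real.cos_le_one (((2 - 0 : ℤ) : ℝ) * (Real.pi / 8))) (h0 C0 2)
  have b2' := bd_up (Real.cos_le_one (((-2 - 0 : ℤ) : ℝ) * (Real.pi / 8))) (h0 C0 2)
  have h5 : m (Par.all N) 5 ≤ m C0 5 := by
    apply hmono
    · simp only [Par.Le, hC0, Par.all]; omega
    · simp [Par.side]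
  have hs := sin_eighth
  have h6 : Real.sin (Real.pi / 8) * m (Par.all N) 5 ≤ Real.sin (Real.pi / 8) * m C0 5 :=
    mul_le_mul_of_nonneg_left h5 (by linarith)
  linarith

end

end Pool.Agent.Hhelper3.SAW
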