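import Pool.Agent.Hhelper3.SAW.Surgery
import Pool.Agent.Hhelper3.SAW.Chain
import Pool.Agent.Hhelper14.SAW.Mass
import Pool.Agent.Hhelper14.SAW.Refl

/-!
The surgery and the chain inequalities with all hypotheses discharged.
-/

namespace Pool.Agent.Hhelper3.SAW
open Pool.Agent.Hhelper14.SAW

lemma kind4 (c : Par) (n : ℕ) (u v w : ℤ × ℤ) (r : List (ℤ × ℤ)) (h : u :: v :: w :: r ∈ exits (Pool.Agent.Hhelper14.SAW.D c) n)
    (hT : Tn (u :: v :: w :: r) = 4) : slit u ∧ u - v = (0, -1) := by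
  have hm : u :: v :: w :: r ∈ ex c 4 n := by
    unfold ex; rw [Finset.mem_filter]; exact ⟨h, hT⟩
  obtain ⟨u', v', w', r', he, -, -, -, -, -, -, hk⟩ := ex_kind hm
  simp only [List.cons.injEq] at he
  obtain ⟨rfl, rfl, rfl, rfl⟩ := he
  simp only [ExitKind] at hk
  rcases hk with hk | hk | hk | hk | hk | hk | hk | hk | hk | hk | hk
  all_goals first
    | exact ⟨hk.2.1, hk.2.2⟩
    | exact absurd hk.1 (by norm_num)

lemma kind5 (c : Par) (n : ℕ) (u v w : ℤ × ℤ) (r : List (ℤ × ℤ)) (h : u :: v :: w :: r ∈ exits (Pool.Agent.Hhelper14.SAW.D c) n)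
    (hT : Tn (u :: v :: w :: r) = 5) : slit u := by
  have hm : u :: v :: w :: r ∈ ex c 5 n := by
    unfold ex; rw [Finset.mem_filter]; exact ⟨h, hT⟩
  obtain ⟨u', v', w', r', he, -, -, -, -, -, -, hk⟩ := ex_kind hm
  simp only [List.cons.injEq] at he
  obtain ⟨rfl, rfl, rfl, rfl⟩ := he
  simp only [ExitKind] at hk
  rcases hk with hk | hk | hk | hk | hk | hk | hk | hk | hk | hk | hk
  all_goals first
    | exact hk.2.1
    | exact absurd hk.1 (by norm_num)

/-- Slit exits with turning `4` are controlled by those with turning `5`. -/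
theorem surgery (N M : ℕ) (h : N + 1 ≤ M) :
    mass (Par.all M) 4 - mass (Par.all (N + 1)) 4 ≤
      (xc + 1 / xc) * (mass (Par.all M) 5 - mass (Par.all N) 5) :=
  four_five kind4 kind5 N M h

theorem mass_refl (c : Par) (k : ℤ) : mass c (-k) = mass c.refl k := by
  unfold mass
  refine tsum_congr fun n => ?_
  rw [ex_refl]

theorem mass_chain (N : ℕ) :
    1 + 2 * Real.sin (Real.pi / 8) * mass (Par.all N) 5 ≤
      416 * ((mass (Par.all (10 * N + 11)) 4 - mass (Par.all N) 4) +
        (mass (Par.all (10 * N + 11)) 5 - mass (Par.all N) 5)) :=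
  chain mass mass_nonneg mass_ident mass_refl (fun c c' k h hk => mass_mono h hk) kill0 kill1 kill2 kill3 N

end Pool.Agent.Hhelper3.SAW
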