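import Pool.Agent.Hhelper14.SAW.Base

/-!
Finiteness of the hexagonal slit domains, finite masses, and the surgery comparing slit exits with turning
`4` and `5`.
-/

namespace Pool.Agent.Hhelper3.SAW
open Pool.Agent.Hhelper14.SAW

/-- Size of a box containing the domain. -/
def box (c : Par) : ℤ := 3 * (c.a0 + c.a1 + c.a2 + c.a3 + c.b1 + c.b2 + c.b3) + 3

lemma D_box {c : Par} {z : ℤ × ℤ} (h : D c z) :
    z ∈ Finset.Icc (-box c) (box c) ×ˢ Finset.Icc (-box c) (box c) := by
  obtain ⟨-, -, h0, h1, h5, hu, hd⟩ := h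
  obtain ⟨a, b⟩ := z
  simp only [F0, F1, F2, F3, F4, F5] at *
  rw [Finset.mem_product]
  simp only [Finset.mem_Icc, box]
  rcases lt_or_ge b 0 with hb | hb
  · have := hd hb
    omega
  · have := hu hb
    omega

lemma saw_mono {p q : ℤ × ℤ → Prop} (h : ∀ x, p x → q x) {n : ℕ} {P : List (ℤ × ℤ)} (hP : IsSaw p n P) :
    IsSaw q n P := by
  obtain ⟨h1, h2, h3, t, h4, h5⟩ := hP
  exact ⟨h1, h2, h3, t, h4, fun x hx => h x (h5 x hx)⟩

lemma D_mono {c c' : Par} (h : c.Le c') {z : ℤ × ℤ} (hz : D c z) : D c' z := by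
  obtain ⟨k0, k1, k2, k3, k4, k5, k6⟩ := h
  obtain ⟨hh, hs, h0, h1, h5, hu, hd⟩ := hz
  refine ⟨hh, hs, by omega, by omega, by omega, fun hb => ?_, fun hb => ?_⟩
  · have := hu hb; omega
  · have := hd hb; omega

lemma saw_empty (c : Par) : ∃ B, ∀ n, B ≤ n → saw (D c) n = ∅ := by
  refine ⟨(Finset.Icc (-box c) (box c) ×ˢ Finset.Icc (-box c) (box c)).card, fun n hn => ?_⟩
  rw [Finset.eq_empty_iff_forall_notMem]
  intro P hP
  rw [mem_saw (D_dom c)] at hP
  obtain ⟨hl, hN, -, t, ht, hp⟩ := hP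
  have h1 : (t ++ [o]).Nodup := by
    have : ((t ++ [o]) ++ [o']).Nodup := by
      rw [ht] at hN; simpa using hN
    exact (List.nodup_append.1 this).1
  have h2 : (t ++ [o]).toFinset ⊆ Finset.Icc (-box c) (box c) ×ˢ Finset.Icc (-box c) (box c) := by
    intro x hx
    exact D_box (hp x (List.mem_toFinset.1 hx))
  have h3 := Finset.card_le_card h2
  rw [List.toFinset_card_of_nodup h1] at h3
  have h4 : (t ++ [o]).length = n + 1 := by
    rw [ht] at hl
    simp at hl ⊢
    exact hl
  omega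

lemma exits_empty (c : Par) : ∃ B, ∀ n, B ≤ n → exits (D c) n = ∅ := by
  obtain ⟨B, hB⟩ := saw_empty c
  refine ⟨B, fun n hn => ?_⟩
  unfold exits cand
  rw [hB n hn]
  simp

lemma ex_empty (c : Par) (k : ℤ) : ∃ B, ∀ n, B ≤ n → ex c k n = ∅ := by
  obtain ⟨B, hB⟩ := exits_empty c
  refine ⟨B, fun n hn => ?_⟩
  unfold ex
  rw [hB n hn]
  simp

lemma mass_summable (c : Par) (k : ℤ) : Summable (fun n : ℕ => xc ^ (n + 1) * ((ex c k n).card : ℝ)) := by
  obtain ⟨B, hB⟩ := ex_empty c k
  refine summable_of_ne_finset_zero (s := Finset.range B) fun n hn => ?_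
  rw [hB n (by simpa using hn)]
  simp

lemma mass_eq_sum (c : Par) (k : ℤ) : ∃ B, ∀ B', B ≤ B' →
    mass c k = ∑ n ∈ Finset.range B', xc ^ (n + 1) * ((ex c k n).card : ℝ) := by
  obtain ⟨B, hB⟩ := ex_empty c k
  refine ⟨B, fun B' hB' => ?_⟩
  unfold mass
  refine tsum_eq_sum fun n hn => ?_
  rw [hB n (by have := Finset.mem_range.not.1 hn; omega)]
  simp

lemma mu_pos : 0 < mu := by
  unfold mu
  have : 0 < Real.cos (Real.pi / 8) := Real.cos_pos_of_mem_Ioo ⟨by linarith [Real.pi_pos], by linarith [Real.pi_pos]⟩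
  linarith

lemma xc_pos : 0 < xc := by
  unfold xc
  exact one_div_pos.2 mu_pos

lemma all_le {m n : ℕ} (h : m ≤ n) : (Par.all m).Le (Par.all n) := ⟨h, h, h, h, h, h, h⟩

/-- Exits on the slit stay exits in a larger domain. -/
lemma exits_slit_mono {c c' : Par} (h : c.Le c') {n : ℕ} {u v w : ℤ × ℤ} {r : List (ℤ × ℤ)}
    (hQ : u :: v :: w :: r ∈ exits (D c) n) (hs : slit u) : u :: v :: w :: r ∈ exits (D c') n := by
  rw [mem_exits (D_dom c)] at hQ
  rw [mem_exits (D_dom c')]
  obtain ⟨u', v', w', r', he, h1, h2, h3, h4⟩ := hQ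
  simp only [List.cons.injEq] at he
  obtain ⟨rfl, rfl, rfl, rfl⟩ := he
  exact ⟨u, v, w, r, rfl, saw_mono (fun x => D_mono h) h1, h2, h3, fun hd => hd.2.1 hs⟩

/-- Exits with a given turning that must lie on the slit. -/
lemma ex_subset (k : ℤ)
    (hk : ∀ (c : Par) (n : ℕ) (u v w : ℤ × ℤ) (r : List (ℤ × ℤ)), u :: v :: w :: r ∈ exits (D c) n →
      Tn (u :: v :: w :: r) = k → slit u)
    {c c' : Par} (h : c.Le c') (n : ℕ) : ex c k n ⊆ ex c' k n := by
  intro Q hQ
  unfold ex at hQ ⊢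
  rw [Finset.mem_filter] at hQ ⊢
  refine ⟨?_, hQ.2⟩
  have h1 := hQ.1
  rw [mem_exits (D_dom c)] at h1
  obtain ⟨u, v, w, r, rfl, -⟩ := h1
  exact exits_slit_mono h hQ.1 (hk c n u v w r hQ.1 hQ.2)

lemma nbr_B {v w : ℤ × ℤ} (hadj : Adj v w) (hu : hon (v + (0, -1))) (hne : v + (0, -1) ≠ w) :
    w = v + (1, 0) ∨ w = v + (-1, 1) := by
  obtain ⟨a, b⟩ := v
  obtain ⟨c, e⟩ := w
  obtain ⟨h1, h2, h3⟩ := hadj
  simp only [hon, U, Prod.mk_sub_mk, Prod.mk_add_mk, Prod.mk.injEq, ne_eq] at *
  rcases h3 with h3 | h3 | h3 | h3 | h3 | h3 <;> omega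

/-- Shape of the exits with turning `4`. -/
lemma ex4_shape
    (h4 : ∀ (c : Par) (n : ℕ) (u v w : ℤ × ℤ) (r : List (ℤ × ℤ)), u :: v :: w :: r ∈ exits (D c) n →
      Tn (u :: v :: w :: r) = 4 → slit u ∧ u - v = (0, -1))
    {c : Par} {n : ℕ} {Q : List (ℤ × ℤ)} (hQ : Q ∈ ex c 4 n) :
    ∃ v w r, Q = (v + (0, -1)) :: v :: w :: r ∧ IsSaw (D c) n (v :: w :: r) ∧ slit (v + (0, -1)) ∧
      hon (v + (0, -1)) ∧ (w = v + (1, 0) ∨ w = v + (-1, 1)) ∧ Tn Q = 4 := by
  unfold ex at hQ
  rw [Finset.mem_filter] at hQ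
  obtain ⟨hQ, hT⟩ := hQ
  have h1 := hQ
  rw [mem_exits (D_dom c)] at h1
  obtain ⟨u, v, w, r, rfl, hP, hadj, huw, hu⟩ := h1
  obtain ⟨hs, huv⟩ := h4 c n u v w r hQ hT
  have hu' : u = v + (0, -1) := by
    rw [← huv]; ring
  subst hu'
  have hvw := (List.isChain_cons_cons.1 hP.2.2.1).1
  exact ⟨v, w, r, rfl, hP, hs, hadj.1, nbr_B hvw hadj.1 huw, hT⟩

/-- First surgery: one step shorter. -/
def f1 : List (ℤ × ℤ) → List (ℤ × ℤ)
  | _ :: _ :: w :: r => (w + (1, -1)) :: w :: r
  | l => l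

/-- Second surgery: one step longer. -/
def f2 : List (ℤ × ℤ) → List (ℤ × ℤ)
  | _ :: v :: w :: r => (v + (2, -1)) :: (v + (1, 0)) :: v :: w :: r
  | l => l

/-- The case where the walk comes from the right. -/
lemma surgery1 {c : Par} {n : ℕ} {v w : ℤ × ℤ} {r : List (ℤ × ℤ)} (hP : IsSaw (D c) n (v :: w :: r))
    (hs : slit (v + (0, -1))) (hh : hon (v + (0, -1))) (hw : w = v + (1, 0))
    (hT : Tn ((v + (0, -1)) :: v :: w :: r) = 4) :
    ∃ m, n = m + 1 ∧ (w + (1, -1)) :: w :: r ∈ ex c 5 m := by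
  subst hw
  have hhv : hon v := (List.isChain_cons_cons.1 hP.2.2.1).1.1
  have hv1 : v.2 = 1 := by
    have := hs.1
    simp only [Prod.snd_add] at this
    omega
  have hn : n ≠ 0 := by
    rintro rfl
    rw [isSaw_zero_iff (D_dom c)] at hP
    simp only [List.cons.injEq, and_true] at hP
    rw [hP.1] at hv1
    simp [o] at hv1
  obtain ⟨m, rfl⟩ := Nat.exists_eq_succ_of_ne_zero hn
  refine ⟨m, rfl, ?_⟩
  have ht := hP.tail
  obtain ⟨w', x, r', he, hwx, hpw⟩ := ht.1.cases
  simp only [List.cons.injEq] at he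
  obtain ⟨rfl, rfl⟩ := he
  -- the slit vertex
  have hs1 : slit (v + (1, 0) + (1, -1)) := by
    obtain ⟨a, b⟩ := v
    simp only [slit, hon, Prod.mk_add_mk] at *
    omega
  have hadj1 : Adj (v + (1, 0) + (1, -1)) (v + (1, 0)) := by
    refine ⟨?_, hwx.1, ?_⟩
    · obtain ⟨a, b⟩ := v
      simp only [hon, Prod.mk_add_mk] at *
      omega
    · have : v + (1, 0) + (1, -1) - (v + (1, 0)) = (1, -1) := by ring
      rw [this]; decide
  -- x is a domain vertex
  have hx : D c x := by
    obtain ⟨hl, hN, hC, t, ht1, hp⟩ := ht.1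
    match t, ht1, hp with
    | [], ht1, hp =>
      simp only [List.nil_append, List.cons.injEq] at ht1
      exfalso
      have := congrArg Prod.snd ht1.1
      simp only [Prod.snd_add, o] at this
      omega
    | [a], ht1, hp =>
      simp only [List.cons_append, List.cons.injEq, List.nil_append] at ht1
      rw [ht1.2.1]; exact hp o (by simp)
    | a :: b :: t, ht1, hp =>
      simp only [List.cons_append, List.cons.injEq] at ht1
      rw [ht1.2.1]; exact hp b (by simp)
  have hxs : ¬ slit x := hx.2.1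
  have hxv : x ≠ v := by
    rintro rfl
    exact ht.2.2 (by simp)
  have hxu : v + (1, 0) + (1, -1) ≠ x := by
    rintro rfl
    exact hxs hs1
  have hx' : x = v + (1, 0) + (0, 1) := by
    obtain ⟨a, b⟩ := v
    obtain ⟨e, f⟩ := x
    obtain ⟨k1, k2, k3⟩ := hwx
    simp only [hon, U, Prod.mk_add_mk, Prod.mk_sub_mk, Prod.mk.injEq, ne_eq] at *
    rcases k3 with k3 | k3 | k3 | k3 | k3 | k3 <;> omega
  unfold ex
  rw [Finset.mem_filter, mem_exits (D_dom c)]
  refine ⟨⟨v + (1, 0) + (1, -1), v + (1, 0), x, r', rfl, ht.1, hadj1, hxu, fun hd => hd.2.1 hs1⟩, ?_⟩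
  rw [Tn_cons_cons_cons, Tn_cons_cons_cons] at hT
  rw [Tn_cons_cons_cons]
  have e1 : v + (0, -1) - v = (0, -1) := by ring
  have e2 : v - (v + (1, 0)) = (-1, 0) := by ext <;> simp
  have e3 : v + (1, 0) - x = (0, -1) := by rw [hx']; ext <;> simp
  have e4 : v + (1, 0) + (1, -1) - (v + (1, 0)) = (1, -1) := by ring
  rw [e1, e2, e3] at hT
  rw [e3, e4]
  have d1 : dl (-1, 0) (0, -1) = 1 := by decide
  have d2 : dl (0, -1) (-1, 0) = -1 := by decide
  have d3 : dl (0, -1) (1, -1) = 1 := by decide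
  rw [d1, d2] at hT
  rw [d3]
  omega

/-- The case where the walk comes from the upper left. -/
lemma surgery2 {c : Par} {n : ℕ} {v w : ℤ × ℤ} {r : List (ℤ × ℤ)} (hP : IsSaw (D c) n (v :: w :: r))
    (hs : slit (v + (0, -1))) (hh : hon (v + (0, -1))) (hw : w = v + (-1, 1))
    (hc : ∀ x, D c x → slit (x + (0, -1)) → hon (x + (0, -1)) → D c (x + (1, 0)))
    (hT : Tn ((v + (0, -1)) :: v :: w :: r) = 4) :
    (v + (2, -1)) :: (v + (1, 0)) :: v :: w :: r ∈ ex c 5 (n + 1) := by
  subst hw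
  have hhv : hon v := (List.isChain_cons_cons.1 hP.2.2.1).1.1
  have hv1 : v.2 = 1 := by
    have := hs.1
    simp only [Prod.snd_add] at this
    omega
  have hvD : D c v := by
    obtain ⟨v', w', r', he, -, h⟩ := hP.cases
    simp only [List.cons.injEq] at he
    rw [he.1]; exact h
  have hx := hc v hvD hs hh
  have hs1 : slit (v + (2, -1)) := by
    obtain ⟨a, b⟩ := v
    simp only [slit, hon, Prod.mk_add_mk] at *
    omega
  have hadjxv : Adj (v + (1, 0)) v := by
    refine ⟨hx.1, hvD.1, ?_⟩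
    have : v + (1, 0) - v = (1, 0) := by ring
    rw [this]; decide
  have hadj1 : Adj (v + (2, -1)) (v + (1, 0)) := by
    refine ⟨?_, hx.1, ?_⟩
    · obtain ⟨a, b⟩ := v
      simp only [hon, Prod.mk_add_mk] at *
      omega
    · have : v + (2, -1) - (v + (1, 0)) = (1, -1) := by ext <;> simp
      rw [this]; decide
  -- the new vertex is not visited
  have hnot : v + (1, 0) ∉ v :: (v + (-1, 1)) :: r := by
    intro hm
    have hm2 : v + (1, 0) ∈ r := by
      simp only [List.mem_cons] at hm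
      rcases hm with hm | hm | hm
      · exfalso
        have := congrArg Prod.fst hm
        simp at this
      · exfalso
        have := congrArg Prod.fst hm
        simp only [Prod.fst_add] at this
        omega
      · exact hm
    obtain ⟨s, t, hr⟩ := List.append_of_mem hm2
    obtain ⟨hl, hN, hC, t0, ht0, hpt⟩ := hP
    subst hr
    -- all vertices but the last are in the domain
    have hlast : (v :: (v + (-1, 1)) :: (s ++ (v + (1, 0)) :: t)).getLast (by simp) = o' := by
      simp only [ht0]; simp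
    have htne : t ≠ [] := by
      rintro rfl
      have : (v :: (v + (-1, 1)) :: (s ++ [v + (1, 0)])).getLast (by simp) = v + (1, 0) := by simp
      rw [this] at hlast
      have := congrArg Prod.snd hlast
      simp only [Prod.snd_add, o'] at this
      omega
    obtain ⟨y, t', rfl⟩ := List.exists_cons_of_ne_nil htne
    -- successor
    have hC1 : HChain ((v :: (v + (-1, 1)) :: s) ++ (v + (1, 0)) :: y :: t') := by simpa using hC
    have hN1 : ((v :: (v + (-1, 1)) :: s) ++ (v + (1, 0)) :: y :: t').Nodup := by simpa using hN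
    have hchain := List.isChain_append.1 hC1
    have hxy : Adj (v + (1, 0)) y := (List.isChain_cons_cons.1 hchain.2.1).1
    -- predecessor
    set z := ((v + (-1, 1)) :: s).getLast (by simp) with hz
    have hzmem : z ∈ (v + (-1, 1)) :: s := List.getLast_mem _
    have hzx : Adj z (v + (1, 0)) := by
      refine hchain.2.2 z ?_ (v + (1, 0)) (by simp)
      have : (v :: (v + (-1, 1)) :: s).getLast? = some z := by
        rw [List.getLast?_eq_getLast_of_ne_nil (by simp), List.getLast_cons_cons]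
      exact this
    have hd := (List.nodup_append.1 hN1).2.2
    have hyz : z ≠ y := hd z (List.mem_cons_of_mem _ hzmem) y (by simp)
    have hzv : z ≠ v := by
      have := (List.nodup_cons.1 (List.nodup_append.1 hN1).1).1
      rintro h; rw [h] at hzmem; exact this hzmem
    have hyv : v ≠ y := hd v (by simp) y (by simp)
    -- not on the slit
    have hdom : ∀ q ∈ (v :: (v + (-1, 1)) :: s) ++ (v + (1, 0)) :: y :: t', q ≠ o' → D c q := by
      intro q hq hqo
      have : q ∈ t0 ++ [o, o'] := by rw [← ht0]; simpa using hq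
      simp only [List.mem_append, List.mem_cons, List.not_mem_nil, or_false] at this
      rcases this with h | h | h
      · exact hpt q (by simp [h])
      · exact hpt q (by simp [h])
      · exact absurd h hqo
    have ho't : o' ∈ y :: t' := by
      have : (v :: (v + (-1, 1)) :: (s ++ (v + (1, 0)) :: y :: t')).getLast (by simp) = (y :: t').getLast (by simp) := by
        simp
      rw [← hlast, this]
      exact List.getLast_mem _
    have hyo : y ≠ o' := by
      intro hyo
      have hNt := (List.nodup_cons.1 (List.nodup_cons.1 (List.nodup_append.1 hN1).2.1).2).1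
      match t', hN, hC, hN1, hC1, hl, ht0, hlast, hchain, hd, hdom, ho't, hNt with
      | [], _, _, _, _, _, ht0, _, _, _, _, _, _ =>
        have h1 : (v :: (v + (-1, 1)) :: s) ++ [v + (1, 0), y] = t0 ++ [o, o'] := by simpa using ht0
        have h2 := List.append_inj' h1 rfl
        have h3 := h2.2
        simp only [List.cons.injEq, and_true] at h3
        have := congrArg Prod.snd h3.1
        simp only [Prod.snd_add, o] at this
        omega
      | a :: t'', _, _, _, _, _, _, hlast, _, _, _, _, hNt =>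
        have : (v :: (v + (-1, 1)) :: (s ++ (v + (1, 0)) :: y :: a :: t'')).getLast (by simp) =
            (a :: t'').getLast (by simp) := by
          simp
        rw [this] at hlast
        apply hNt
        rw [hyo, ← hlast]
        exact List.getLast_mem _
    have hzo : z ≠ o' := hd z (List.mem_cons_of_mem _ hzmem) o' (List.mem_cons_of_mem _ ho't)
    have key : ∀ q, Adj q (v + (1, 0)) → q ≠ v → q ≠ o' →
        q ∈ (v :: (v + (-1, 1)) :: s) ++ (v + (1, 0)) :: y :: t' → q = v + (1, 1) := by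
      intro q hq hqv hqo hqm
      have hqs : ¬ slit q := (hdom q hqm hqo).2.1
      have hxs := hs
      have hxh := hh
      have hxv1 := hv1
      clear hC hN hC1 hN1 hchain hd hdom hT hs hh hv1 hxy hzx hz hyz hzv hyv hzmem hqm hl ht0 hpt hlast ho't hyo hzo hm hm2
      obtain ⟨a, b⟩ := v
      obtain ⟨e, f⟩ := q
      obtain ⟨k1, k2, k3⟩ := hq
      simp only [slit, hon, U, Prod.mk_add_mk, Prod.mk_sub_mk, Prod.mk.injEq, ne_eq] at *
      rcases k3 with k3 | k3 | k3 | k3 | k3 | k3 <;> omega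
    have hy := key y hxy.symm hyv.symm hyo (by simp)
    have hz' := key z hzx hzv hzo (List.mem_append_left _ (List.mem_cons_of_mem _ hzmem))
    exact hyz (hz'.trans hy.symm)
  have hS : IsSaw (D c) (n + 1) ((v + (1, 0)) :: v :: (v + (-1, 1)) :: r) := hP.cons hadjxv hx hnot
  unfold ex
  rw [Finset.mem_filter, mem_exits (D_dom c)]
  refine ⟨⟨v + (2, -1), v + (1, 0), v, (v + (-1, 1)) :: r, rfl, hS, hadj1, ?_, fun hd => hd.2.1 hs1⟩, ?_⟩
  · intro h
    have := congrArg Prod.fst h
    simp only [Prod.fst_add] at this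
    omega
  · rw [Tn_cons_cons_cons] at hT
    rw [Tn_cons_cons_cons, Tn_cons_cons_cons]
    have e1 : v + (0, -1) - v = (0, -1) := by ring
    have e2 : v - (v + (-1, 1)) = (1, -1) := by ext <;> simp
    have e3 : v + (1, 0) - v = (1, 0) := by ring
    have e4 : v + (2, -1) - (v + (1, 0)) = (1, -1) := by ext <;> simp
    rw [e1, e2] at hT
    rw [e2, e3, e4]
    have d1 : dl (1, -1) (0, -1) = -1 := by decide
    have d2 : dl (1, -1) (1, 0) = 1 := by decide
    have d3 : dl (1, 0) (1, -1) = -1 := by decide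
    rw [d1] at hT
    rw [d2, d3]
    omega

lemma f1_inj {Q Q' : List (ℤ × ℤ)} {v w v' w' : ℤ × ℤ} {r r' : List (ℤ × ℤ)}
    (hQ : Q = (v + (0, -1)) :: v :: w :: r) (hw : w = v + (1, 0))
    (hQ' : Q' = (v' + (0, -1)) :: v' :: w' :: r') (hw' : w' = v' + (1, 0)) (h : f1 Q = f1 Q') : Q = Q' := by
  subst hQ hQ' hw hw'
  simp only [f1, List.cons.injEq, add_left_inj] at h
  obtain ⟨h1, h2, h3⟩ := h
  subst h1 h3
  rfl

lemma f2_inj {Q Q' : List (ℤ × ℤ)} {v w v' w' : ℤ × ℤ} {r r' : List (ℤ × ℤ)}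
    (hQ : Q = (v + (0, -1)) :: v :: w :: r)
    (hQ' : Q' = (v' + (0, -1)) :: v' :: w' :: r') (h : f2 Q = f2 Q') : Q = Q' := by
  subst hQ hQ'
  simp only [f2, List.cons.injEq, add_left_inj] at h
  obtain ⟨-, -, h1, h2, h3⟩ := h
  subst h1 h2 h3
  rfl

lemma exits_isSaw {c : Par} {n : ℕ} {u v w : ℤ × ℤ} {r : List (ℤ × ℤ)}
    (h : u :: v :: w :: r ∈ exits (D c) n) : IsSaw (D c) n (v :: w :: r) := by
  rw [mem_exits (D_dom c)] at h
  obtain ⟨u', v', w', r', he, h1, -⟩ := h
  simp only [List.cons.injEq] at he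
  obtain ⟨rfl, rfl, rfl, rfl⟩ := he
  exact h1

section main

variable (h4 : ∀ (c : Par) (n : ℕ) (u v w : ℤ × ℤ) (r : List (ℤ × ℤ)), u :: v :: w :: r ∈ exits (D c) n →
      Tn (u :: v :: w :: r) = 4 → slit u ∧ u - v = (0, -1))
    (h5 : ∀ (c : Par) (n : ℕ) (u v w : ℤ × ℤ) (r : List (ℤ × ℤ)), u :: v :: w :: r ∈ exits (D c) n →
      Tn (u :: v :: w :: r) = 5 → slit u)

include h4 in
lemma ex4_zero (c : Par) : ex c 4 0 = ∅ := by
  rw [Finset.eq_empty_iff_forall_notMem]
  intro Q hQ
  obtain ⟨v, w, r, rfl, hP, hs, -⟩ := ex4_shape h4 hQ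
  rw [isSaw_zero_iff (D_dom c)] at hP
  simp only [List.cons.injEq] at hP
  have := hs.1
  rw [hP.1] at this
  simp [o] at this

include h4 in
/-- The counting inequality. -/
lemma count_ineq {N M : ℕ} (n : ℕ) :
    (ex (Par.all M) 4 (n + 1) \ ex (Par.all (N + 1)) 4 (n + 1)).card ≤
      (ex (Par.all M) 5 n \ ex (Par.all N) 5 n).card +
      (ex (Par.all M) 5 (n + 2) \ ex (Par.all N) 5 (n + 2)).card := by
  classical
  set A := ex (Par.all M) 4 (n + 1) \ ex (Par.all (N + 1)) 4 (n + 1) with hA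
  let P1 : List (ℤ × ℤ) → Prop := fun Q => ∃ v w r, Q = (v + (0, -1)) :: v :: w :: r ∧ w = v + (1, 0)
  have hsplit : A.card = (A.filter P1).card + (A.filter (fun Q => ¬ P1 Q)).card :=
    (Finset.card_filter_add_card_filter_not _).symm
  rw [hsplit]
  refine add_le_add ?_ ?_
  · refine Finset.card_le_card_of_injOn f1 ?_ ?_
    · intro Q hQ
      rw [Finset.mem_coe, Finset.mem_filter, hA, Finset.mem_sdiff] at hQ
      obtain ⟨⟨hQ1, hQ2⟩, v1, w1, r1, hQe, hw1⟩ := hQ
      obtain ⟨v, w, r, hQe', hP, hs, hh, -, hT⟩ := ex4_shape h4 hQ1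
      have he := hQe.symm.trans hQe'
      simp only [List.cons.injEq] at he
      obtain ⟨-, rfl, rfl, rfl⟩ := he
      obtain ⟨m, hm, hmem⟩ := surgery1 hP hs hh hw1 (by rw [← hQe]; exact hT)
      obtain rfl : n = m := by omega
      rw [hQe]
      rw [Finset.mem_coe, Finset.mem_sdiff]
      refine ⟨hmem, fun hmem' => hQ2 ?_⟩
      -- the exit belongs to the larger small domain
      unfold ex at hmem' ⊢
      rw [Finset.mem_filter] at hmem' ⊢
      refine ⟨?_, hT⟩
      have h1 := hmem'.1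
      simp only [f1] at h1
      rw [mem_exits (D_dom _)] at h1
      obtain ⟨u', v', w', r', he, hS, -⟩ := h1
      simp only [List.cons.injEq] at he
      obtain ⟨rfl, rfl, rfl⟩ := he
      rw [hQe, mem_exits (D_dom _)]
      have hS' : IsSaw (D (Par.all (N + 1))) n (w1 :: w' :: r') :=
        saw_mono (fun x hx => D_mono (all_le (Nat.le_succ N)) hx) hS
      have hw1D : D (Par.all N) w1 := by
        obtain ⟨v', w', r', he, -, h⟩ := hS.cases
        simp only [List.cons.injEq] at he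
        rw [he.1]; exact h
      have hadj := (List.isChain_cons_cons.1 hP.2.2.1).1
      have hvD : D (Par.all (N + 1)) v1 := by
        have hv1 : v1.2 = 1 := by
          have := hs.1
          simp only [Prod.snd_add] at this
          omega
        have hhv := hadj.1
        subst hw1
        obtain ⟨-, -, g0, g1, g5, gu, -⟩ := hw1D
        obtain ⟨a, b⟩ := v1
        have gu' := gu (by simp only [Prod.snd_add] at *; omega)
        simp only [slit, F0, F1, F2, F3, F5, Par.all, Prod.mk_add_mk] at hs g0 g1 g5 gu' hv1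
        refine ⟨hhv, ?_, ?_, ?_, ?_, ?_, ?_⟩ <;>
          simp only [slit, F0, F1, F2, F3, F4, F5, Par.all] <;> omega
      have hnot := hP.tail.2.2
      refine ⟨v1 + (0, -1), v1, w1, w' :: r', rfl, hS'.cons hadj hvD hnot, ?_, ?_, fun hd => hd.2.1 hs⟩
      · refine ⟨hh, hadj.1, ?_⟩
        have : v1 + (0, -1) - v1 = (0, -1) := by ring
        rw [this]; decide
      · rw [hw1]
        intro h
        have := congrArg Prod.fst h
        simp only [Prod.fst_add] at this
        omega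
    · intro Q hQ Q' hQ' he
      rw [Finset.mem_coe, Finset.mem_filter] at hQ hQ'
      obtain ⟨-, v, w, r, hQ, hw⟩ := hQ
      obtain ⟨-, v', w', r', hQ', hw'⟩ := hQ'
      exact f1_inj hQ hw hQ' hw' he
  · refine Finset.card_le_card_of_injOn f2 ?_ ?_
    · intro Q hQ
      rw [Finset.mem_coe, Finset.mem_filter, hA, Finset.mem_sdiff] at hQ
      obtain ⟨⟨hQ1, hQ2⟩, hnP⟩ := hQ
      obtain ⟨v, w, r, hQe, hP, hs, hh, hw, hT⟩ := ex4_shape h4 hQ1
      have hw2 : w = v + (-1, 1) := by
        rcases hw with hw | hw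
        · exact absurd ⟨v, w, r, hQe, hw⟩ hnP
        · exact hw
      have hmem := surgery2 hP hs hh hw2 (by
        intro x hx hxs hxh
        obtain ⟨g, gs, g0, g1, g5, gu, -⟩ := hx
        obtain ⟨a, b⟩ := x
        simp only [slit, hon, Prod.mk_add_mk] at hxs hxh g
        have gu' := gu (by simp only []; omega)
        simp only [F0, F1, F2, F3, F5, Par.all] at g0 g1 g5 gu'
        refine ⟨?_, ?_, ?_, ?_, ?_, ?_, ?_⟩ <;>
          simp only [hon, slit, F0, F1, F2, F3, F4, F5, Par.all, Prod.mk_add_mk] <;> omega)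
        (by rw [← hQe]; exact hT)
      rw [hQe, Finset.mem_coe, Finset.mem_sdiff]
      refine ⟨hmem, fun hmem' => hQ2 ?_⟩
      unfold ex at hmem' ⊢
      rw [Finset.mem_filter] at hmem' ⊢
      refine ⟨?_, hT⟩
      have h1 := exits_isSaw (by simpa only [f2] using hmem'.1)
      have hS := saw_mono (fun x hx => D_mono (all_le (Nat.le_succ N)) hx) h1.tail.1
      rw [hQe, mem_exits (D_dom _)]
      have hadj := (List.isChain_cons_cons.1 hP.2.2.1).1
      refine ⟨v + (0, -1), v, w, r, rfl, hS, ?_, ?_, fun hd => hd.2.1 hs⟩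
      · refine ⟨hh, hadj.1, ?_⟩
        have : v + (0, -1) - v = (0, -1) := by ring
        rw [this]; decide
      · rw [hw2]
        intro h
        have := congrArg Prod.fst h
        simp only [Prod.fst_add] at this
        omega
    · intro Q hQ Q' hQ' he
      rw [Finset.mem_coe, Finset.mem_filter, hA, Finset.mem_sdiff] at hQ hQ'
      obtain ⟨v, w, r, hQe, -⟩ := ex4_shape h4 hQ.1.1
      obtain ⟨v', w', r', hQe', -⟩ := ex4_shape h4 hQ'.1.1
      exact f2_inj hQe hQe' he

include h4 h5 in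
/-- Slit exits with turning `4` are controlled by those with turning `5`. -/
theorem four_five (N M : ℕ) (h : N + 1 ≤ M) :
    mass (Par.all M) 4 - mass (Par.all (N + 1)) 4 ≤
      (xc + 1 / xc) * (mass (Par.all M) 5 - mass (Par.all N) 5) := by
  classical
  obtain ⟨B1, hB1⟩ := mass_eq_sum (Par.all M) 4
  obtain ⟨B2, hB2⟩ := mass_eq_sum (Par.all (N + 1)) 4
  obtain ⟨B3, hB3⟩ := mass_eq_sum (Par.all M) 5
  obtain ⟨B4, hB4⟩ := mass_eq_sum (Par.all N) 5
  set K := B1 + B2 + B3 + B4 with hK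
  rw [hB1 (K + 1) (by omega), hB2 (K + 1) (by omega), ← Finset.sum_sub_distrib]
  have hx := xc_pos
  have hs4 := ex_subset 4 (fun c n u v w r hQ hT => (h4 c n u v w r hQ hT).1) (all_le h)
  have hs5 := ex_subset 5 h5 (all_le (show N ≤ M by omega))
  -- difference of masses of type 5 for every large truncation
  have hD5 : ∀ B', K ≤ B' → mass (Par.all M) 5 - mass (Par.all N) 5 =
      ∑ n ∈ Finset.range B', xc ^ (n + 1) * ((ex (Par.all M) 5 n \ ex (Par.all N) 5 n).card : ℝ) := by
    intro B' hB'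
    rw [hB3 B' (by omega), hB4 B' (by omega), ← Finset.sum_sub_distrib]
    refine Finset.sum_congr rfl fun n _ => ?_
    rw [Finset.card_sdiff_of_subset (hs5 n), Nat.cast_sub (Finset.card_le_card (hs5 n))]
    ring
  have hD4 : ∀ n, xc ^ (n + 1) * ((ex (Par.all M) 4 n).card : ℝ) -
      xc ^ (n + 1) * ((ex (Par.all (N + 1)) 4 n).card : ℝ) =
      xc ^ (n + 1) * ((ex (Par.all M) 4 n \ ex (Par.all (N + 1)) 4 n).card : ℝ) := by
    intro n
    rw [Finset.card_sdiff_of_subset (hs4 n), Nat.cast_sub (Finset.card_le_card (hs4 n))]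
    ring
  rw [Finset.sum_congr rfl fun n _ => hD4 n, Finset.sum_range_succ']
  have hz : (ex (Par.all M) 4 0 \ ex (Par.all (N + 1)) 4 0).card = 0 := by
    rw [ex4_zero h4]; simp
  rw [hz]
  simp only [Nat.cast_zero, mul_zero, add_zero]
  calc ∑ n ∈ Finset.range K, xc ^ (n + 1 + 1) *
        ((ex (Par.all M) 4 (n + 1) \ ex (Par.all (N + 1)) 4 (n + 1)).card : ℝ)
      ≤ ∑ n ∈ Finset.range K, (xc * (xc ^ (n + 1) * ((ex (Par.all M) 5 n \ ex (Par.all N) 5 n).card : ℝ)) +
          1 / xc * (xc ^ (n + 2 + 1) *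
            ((ex (Par.all M) 5 (n + 2) \ ex (Par.all N) 5 (n + 2)).card : ℝ))) := by
        refine Finset.sum_le_sum fun n _ => ?_
        have h1 : ((ex (Par.all M) 4 (n + 1) \ ex (Par.all (N + 1)) 4 (n + 1)).card : ℝ) ≤
            ((ex (Par.all M) 5 n \ ex (Par.all N) 5 n).card : ℝ) +
            ((ex (Par.all M) 5 (n + 2) \ ex (Par.all N) 5 (n + 2)).card : ℝ) := by
          exact_mod_cast count_ineq h4 n
        have h2 : xc * xc ^ (n + 1) = xc ^ (n + 1 + 1) := by ring
        have h3 : 1 / xc * xc ^ (n + 2 + 1) = xc ^ (n + 1 + 1) := by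
          rw [one_div, pow_succ' xc (n + 2), ← mul_assoc, inv_mul_cancel₀ hx.ne', one_mul]
        rw [← mul_assoc, ← mul_assoc, h2, h3, ← mul_add]
        exact mul_le_mul_of_nonneg_left h1 (pow_pos hx _).le
    _ = xc * (mass (Par.all M) 5 - mass (Par.all N) 5) + 1 / xc * ∑ n ∈ Finset.range K, xc ^ (n + 2 + 1) *
            ((ex (Par.all M) 5 (n + 2) \ ex (Par.all N) 5 (n + 2)).card : ℝ) := by
        rw [Finset.sum_add_distrib, ← Finset.mul_sum, ← Finset.mul_sum, ← hD5 K le_rfl]
    _ ≤ xc * (mass (Par.all M) 5 - mass (Par.all N) 5) +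
        1 / xc * (mass (Par.all M) 5 - mass (Par.all N) 5) := by
        have h6 : ∑ n ∈ Finset.range K, xc ^ (n + 2 + 1) *
            ((ex (Par.all M) 5 (n + 2) \ ex (Par.all N) 5 (n + 2)).card : ℝ) ≤
            mass (Par.all M) 5 - mass (Par.all N) 5 := by
          rw [hD5 (K + 2) (by omega), Finset.sum_range_succ', Finset.sum_range_succ']
          have : ∀ m, 0 ≤ xc ^ (m + 1) * ((ex (Par.all M) 5 m \ ex (Par.all N) 5 m).card : ℝ) :=
            fun m => mul_nonneg (pow_pos hx _).le (Nat.cast_nonneg _)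
          have h7 := this 0
          have h8 := this (0 + 1)
          linarith
        have h9 : 0 ≤ 1 / xc := (one_div_pos.2 hx).le
        have := mul_le_mul_of_nonneg_left h6 h9
        linarith
    _ = (xc + 1 / xc) * (mass (Par.all M) 5 - mass (Par.all N) 5) := by ring

end main

end Pool.Agent.Hhelper3.SAW
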